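import Mathlib
import Pool.Agent.R172.BigEllipsoid

set_option autoImplicit false

/-!
# Partitioning families with large 2d-wise intersection volume

Outline. By Helly's theorem for the interiors, the intersection of the family has interior points.
A near-maximal ellipsoid `c + A B` in it and a quantitative form of the theorem of Steinitz show
that `|det A|` is bounded from below (this is the theorem of Bárány, Katchalski and Pach). In the
coordinates of this ellipsoid all members contain the unit ball, so they have large volume inside a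
ball of a fixed radius `R`. The members are classified by the points of a fixed finite net of this
ball which they contain; the hull of these points contains the member in the ball, up to a factor
`1 - η`.
-/

namespace Pool.Agent.Results.MP_05b917_co.VolumePartition

open Set Metric MeasureTheory Module Pool.Agent.R172
open scoped Pointwise

lemma interior_nonempty_of_volume {d : ℕ} {s : Set (EuclideanSpace ℝ (Fin d))}
    (hs : Convex ℝ s) (hv : 0 < volume s) : (interior s).Nonempty := by
  by_contra hcon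
  rw [not_nonempty_iff_eq_empty] at hcon
  have hsub : s ⊆ frontier s := by
    intro x hx
    refine ⟨subset_closure hx, ?_⟩
    rw [hcon]
    exact notMem_empty x
  have h0 : volume (frontier s) = 0 := hs.addHaar_frontier volume
  have := measure_mono (μ := volume) hsub
  rw [h0] at this
  exact absurd hv (not_lt.2 this)

/-- Volume in the coordinates of an affine map. -/
lemma volume_coords {d : ℕ} (A : EuclideanSpace ℝ (Fin d) →ₗ[ℝ] EuclideanSpace ℝ (Fin d))
    (hA : 0 < |LinearMap.det A|) (c : EuclideanSpace ℝ (Fin d))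
    (S : Set (EuclideanSpace ℝ (Fin d))) :
    volume S = ENNReal.ofReal |LinearMap.det A| * volume {w | c + A w ∈ S} := by
  have hdet : LinearMap.det A ≠ 0 := abs_pos.1 hA
  have h1 : {w | c + A w ∈ S} = A ⁻¹' ((fun x => c + x) ⁻¹' S) := rfl
  rw [h1, Measure.addHaar_preimage_linearMap volume hdet, measure_preimage_add, ← mul_assoc,
    ← ENNReal.ofReal_mul (abs_nonneg _), abs_inv, mul_inv_cancel₀ hA.ne', ENNReal.ofReal_one,
    one_mul]

lemma convex_coords {d : ℕ} {P : Set (EuclideanSpace ℝ (Fin d))} (hP : Convex ℝ P)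
    (A : EuclideanSpace ℝ (Fin d) →ₗ[ℝ] EuclideanSpace ℝ (Fin d))
    (c : EuclideanSpace ℝ (Fin d)) : Convex ℝ {w | c + A w ∈ P} := by
  intro p hp q hq a b ha hb hab
  have := hP hp hq ha hb hab
  simp only [mem_ofPred_eq] at this ⊢
  convert this using 1
  rw [map_add, map_smul, map_smul, smul_add, smul_add]
  have hc : c = a • c + b • c := by rw [← add_smul, hab, one_smul]
  conv_lhs => rw [hc]
  abel

/-- A large ellipsoid in the intersection of the family. -/
lemma exists_good_ellipsoid {d : ℕ} (hd : 1 ≤ d) :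
    ∃ κ > 0, ∀ (ι : Type) (_ : Finite ι) (_ : Nonempty ι)
      (K : ι → Set (EuclideanSpace ℝ (Fin d))), (∀ i, Convex ℝ (K i)) →
      (∀ c : Fin (2 * d) → ι, 1 ≤ volume (⋂ k, K (c k))) →
      ∃ (A : EuclideanSpace ℝ (Fin d) →ₗ[ℝ] EuclideanSpace ℝ (Fin d))
        (c : EuclideanSpace ℝ (Fin d)), κ ≤ |LinearMap.det A| ∧
        ∀ x, ‖x‖ < 1 → ∀ i, c + A x ∈ K i := by
  classical
  have hrank : finrank ℝ (EuclideanSpace ℝ (Fin d)) = d := by
    rw [finrank_euclideanSpace, Fintype.card_fin]
  obtain ⟨R', hR', hsteinitz⟩ := exists_bounded_subfamily (V := EuclideanSpace ℝ (Fin d)) hrank hd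
    (2 ^ (d + 2)) (by positivity)
  have hvpos : 0 < (volume (closedBall (0 : EuclideanSpace ℝ (Fin d)) R')).toReal := by
    rw [ENNReal.toReal_pos_iff]
    exact ⟨measure_closedBall_pos _ _ hR', measure_closedBall_lt_top⟩
  set v := (volume (closedBall (0 : EuclideanSpace ℝ (Fin d)) R')).toReal with hv
  refine ⟨min 1 (1 / v), lt_min one_pos (by positivity), ?_⟩
  intro ι hfin hne K hK hvol
  have := Fintype.ofFinite ι
  -- the interiors have a common point
  have hinter : (⋂ i ∈ (Finset.univ : Finset ι), interior (K i)).Nonempty := by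
    refine Convex.helly_theorem' (𝕜 := ℝ) (fun i _ => (hK i).interior) ?_
    intro J _ hJ
    rw [hrank] at hJ
    rcases J.eq_empty_or_nonempty with rfl | hJne
    · simp
    · have : Nonempty ↥J := hJne.to_subtype
      obtain ⟨e⟩ := Function.Embedding.nonempty_of_card_le
        (α := ↥J) (β := Fin (2 * d)) (by
          rw [Fintype.card_coe, Fintype.card_fin]
          omega)
      have hs : Function.Surjective (Function.invFun e) :=
        Function.invFun_surjective e.injective
      have h1 := hvol (fun k => ((Function.invFun e k : ↥J) : ι))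
      have h2 : (interior (⋂ k, K ((Function.invFun e k : ↥J) : ι))).Nonempty := by
        apply interior_nonempty_of_volume (convex_iInter fun k => hK _)
        exact lt_of_lt_of_le zero_lt_one h1
      obtain ⟨p, hp⟩ := h2
      refine ⟨p, ?_⟩
      simp only [mem_iInter]
      intro i hi
      obtain ⟨k, hk⟩ := hs ⟨i, hi⟩
      have h3 : interior (⋂ k, K ((Function.invFun e k : ↥J) : ι)) ⊆
          interior (K ((Function.invFun e k : ↥J) : ι)) :=
        interior_mono (iInter_subset _ k)
      have := h3 hp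
      rw [hk] at this
      exact this
  have hint : (interior (⋂ i, K i)).Nonempty := by
    obtain ⟨p, hp⟩ := hinter
    refine ⟨p, ?_⟩
    have hopen : IsOpen (⋂ i, interior (K i)) := isOpen_iInter_of_finite fun i => isOpen_interior
    have hsub : (⋂ i, interior (K i)) ⊆ ⋂ i, K i := iInter_mono fun i => interior_subset
    apply interior_maximal hsub hopen
    simpa using hp
  obtain ⟨A, c, hpos, hA, hcase⟩ := exists_ellipsoid (convex_iInter hK) hint
  have hA' : ∀ x, ‖x‖ < 1 → ∀ i, c + A x ∈ K i := fun x hx i => mem_iInter.1 (hA x hx) i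
  refine ⟨A, c, ?_, hA'⟩
  rcases hcase with h1 | hbound
  · exact (min_le_left _ _).trans h1
  · refine (min_le_right _ _).trans ?_
    rw [hrank] at hbound
    obtain ⟨c', hc'⟩ := hsteinitz ι (fun i => {w | c + A w ∈ K i})
      (fun i => convex_coords (hK i) A c)
      (fun i w hw => hA' w (mem_ball_zero_iff.1 hw) i) (by
        intro w hw
        rw [mem_closedBall_zero_iff]
        apply hbound
        rw [mem_iInter] at hw ⊢
        exact hw)
    have h2 := hvol c'
    rw [volume_coords A hpos c] at h2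
    have h3 : {w | c + A w ∈ ⋂ k, K (c' k)} ⊆ closedBall 0 R' := by
      intro w hw
      apply hc'
      simp only [mem_ofPred_eq, mem_iInter] at hw ⊢
      exact hw
    have h4 : (1 : ENNReal) ≤ ENNReal.ofReal |LinearMap.det A| * ENNReal.ofReal v := by
      refine h2.trans ?_
      gcongr
      rw [hv, ENNReal.ofReal_toReal measure_closedBall_lt_top.ne]
      exact measure_mono h3
    rw [← ENNReal.ofReal_mul (abs_nonneg _), ENNReal.one_le_ofReal] at h4
    rw [div_le_iff₀ hvpos]
    exact h4

/-- A convex set containing the unit ball lies in a given ball or has large volume in it. -/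
lemma exists_radius {d : ℕ} (m : ℝ) : ∃ R : ℝ, 1 ≤ R ∧
    ∀ K : Set (EuclideanSpace ℝ (Fin d)), Convex ℝ K → ball 0 1 ⊆ K →
      (K ⊆ closedBall 0 R ∨ ENNReal.ofReal m ≤ volume (K ∩ closedBall 0 R)) := by
  have hvpos : 0 < (volume (ball (0 : EuclideanSpace ℝ (Fin d)) (1 / 2))).toReal := by
    rw [ENNReal.toReal_pos_iff]
    exact ⟨measure_ball_pos _ _ (by norm_num), measure_ball_lt_top⟩
  set v := (volume (ball (0 : EuclideanSpace ℝ (Fin d)) (1 / 2))).toReal with hv
  obtain ⟨N₀, hN₀⟩ := exists_nat_gt (m / v)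
  let N := N₀ + 1
  have hN : m ≤ N * v := by
    rw [div_lt_iff₀ hvpos] at hN₀
    have : (N : ℝ) = N₀ + 1 := by simp [N]
    rw [this]
    nlinarith
  have hN1 : (1 : ℝ) ≤ N := by
    simp only [N]
    push_cast
    have : (0 : ℝ) ≤ N₀ := by positivity
    linarith
  refine ⟨2 * N, by linarith, fun K hK hball => ?_⟩
  by_cases hsub : K ⊆ closedBall 0 (2 * N)
  · exact Or.inl hsub
  · right
    obtain ⟨p, hpK, hp⟩ := not_subset.1 hsub
    rw [mem_closedBall_zero_iff, not_le] at hp
    have hpn : 0 < ‖p‖ := by linarith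
    let q : ℕ → EuclideanSpace ℝ (Fin d) := fun j => ((j : ℝ) / ‖p‖) • p
    have hqdist : ∀ j k : ℕ, dist (q j) (q k) = |(j : ℝ) - k| := by
      intro j k
      simp only [q, dist_eq_norm]
      rw [← sub_smul, norm_smul, ← sub_div, Real.norm_eq_abs, abs_div, abs_of_pos hpn,
        div_mul_cancel₀ _ hpn.ne']
    have hqnorm : ∀ j : ℕ, ‖q j‖ = j := by
      intro j
      simp only [q]
      rw [norm_smul, Real.norm_eq_abs, abs_div, abs_of_pos hpn, div_mul_cancel₀ _ hpn.ne',
        Nat.abs_cast]
    have hdisj : Set.PairwiseDisjoint (↑(Finset.range N)) (fun j => ball (q j) (1 / 2)) := by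
      intro j _ k _ hjk
      apply ball_disjoint_ball
      rw [hqdist]
      have h1 : (1 : ℝ) ≤ |(j : ℝ) - k| := by
        have h2 : (1 : ℤ) ≤ |(j : ℤ) - k| := by
          apply Int.one_le_abs
          intro h
          apply hjk
          omega
        exact_mod_cast h2
      linarith
    have hmem : (⋃ j ∈ Finset.range N, ball (q j) (1 / 2)) ⊆ K ∩ closedBall 0 (2 * N) := by
      intro x hx
      simp only [mem_iUnion, Finset.mem_range, exists_prop] at hx
      obtain ⟨j, hj, hx⟩ := hx
      have hjN : (j : ℝ) + 1 ≤ N := by exact_mod_cast hj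
      have hj0 : (0 : ℝ) ≤ j := by positivity
      rw [mem_ball, dist_eq_norm] at hx
      set s := (j : ℝ) / ‖p‖ with hs
      have hs0 : 0 ≤ s := by positivity
      have hs1 : s ≤ 1 / 2 := by
        rw [hs, div_le_iff₀ hpn]
        linarith
      have h1s : 0 < 1 - s := by linarith
      constructor
      · have hw : ((1 - s)⁻¹ • (x - q j)) ∈ K := by
          apply hball
          rw [mem_ball_zero_iff, norm_smul, norm_inv, Real.norm_eq_abs, abs_of_pos h1s,
            inv_mul_lt_iff₀ h1s]
          linarith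
        have := hK hpK hw hs0 h1s.le (by ring)
        rw [smul_smul, mul_inv_cancel₀ h1s.ne', one_smul] at this
        have e : s • p + (x - q j) = x := by
          simp only [q]
          rw [← hs]
          abel
        rwa [e] at this
      · rw [mem_closedBall_zero_iff]
        have h2 : ‖x‖ ≤ ‖q j‖ + ‖x - q j‖ := by
          calc ‖x‖ = ‖q j + (x - q j)‖ := by congr 1; abel
            _ ≤ _ := norm_add_le _ _
        rw [hqnorm] at h2
        linarith
    refine le_trans ?_ (measure_mono hmem)
    rw [measure_biUnion_finset hdisj (fun j _ => measurableSet_ball)]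
    have hcent : ∀ j ∈ Finset.range N, volume (ball (q j) (1 / 2)) =
        volume (ball (0 : EuclideanSpace ℝ (Fin d)) (1 / 2)) :=
      fun j _ => Measure.addHaar_ball_center volume (q j) _
    rw [Finset.sum_congr rfl hcent, Finset.sum_const, Finset.card_range, nsmul_eq_mul]
    rw [show volume (ball (0 : EuclideanSpace ℝ (Fin d)) (1 / 2)) = ENNReal.ofReal v from
      (ENNReal.ofReal_toReal measure_ball_lt_top.ne).symm]
    rw [← ENNReal.ofReal_natCast, ← ENNReal.ofReal_mul (by positivity)]
    exact ENNReal.ofReal_le_ofReal hN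

/-- The hull of the net points in the set. -/
lemma hull_net {d : ℕ} {K : Set (EuclideanSpace ℝ (Fin d))} (hK : Convex ℝ K)
    (hball : ball 0 1 ⊆ K) {R η : ℝ} (hR : 1 ≤ R) (hη0 : 0 < η) (hη1 : η < 1)
    (t T : Finset (EuclideanSpace ℝ (Fin d)))
    (ht : ∀ z, ‖z‖ ≤ R → ∃ x ∈ t, dist z x < η / 8) (hT : ∀ x ∈ t, x ∈ K → x ∈ T) :
    (1 - η) • (K ∩ closedBall 0 R) ⊆
      convexHull ℝ (T : Set (EuclideanSpace ℝ (Fin d))) := by
  rintro _ ⟨k, ⟨hkK, hkR⟩, rfl⟩
  rw [mem_closedBall_zero_iff] at hkR
  simp only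
  by_contra hcon
  obtain ⟨g, u, hu, hg⟩ := geometric_hahn_banach_point_closed (convex_convexHull ℝ _)
    (Set.Finite.isClosed_convexHull (𝕜 := ℝ) T.finite_toSet) hcon
  let v := (InnerProductSpace.toDual ℝ (EuclideanSpace ℝ (Fin d))).symm g
  have hv : ∀ b, inner ℝ v b = g b := fun b => InnerProductSpace.toDual_symm_apply
  -- the separating direction, oriented away from the hull
  have hlt : ∀ x ∈ t, x ∈ K → inner ℝ (-v) x < inner ℝ (-v) ((1 - η) • k) := by
    intro x hx hxK
    rw [inner_neg_left, inner_neg_left, hv, hv]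
    have := hg x (subset_convexHull ℝ _ (hT x hx hxK))
    linarith
  -- it is not zero
  obtain ⟨x₀, hx₀t, hx₀⟩ := ht 0 (by rw [norm_zero]; linarith)
  have hx₀K : x₀ ∈ K := by
    apply hball
    rw [mem_ball, dist_comm]
    linarith
  have hv0 : -v ≠ 0 := by
    intro h
    have := hlt x₀ hx₀t hx₀K
    rw [h, inner_zero_left, inner_zero_left] at this
    exact lt_irrefl _ this
  have hvn : 0 < ‖-v‖ := norm_pos_iff.2 hv0
  set a := (‖-v‖)⁻¹ • (-v) with ha
  have han : ‖a‖ = 1 := by
    rw [ha, norm_smul, norm_inv, norm_norm, inv_mul_cancel₀ hvn.ne']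
  have hlt' : ∀ x ∈ t, x ∈ K → inner ℝ a x < (1 - η) * inner ℝ a k := by
    intro x hx hxK
    have h1 := hlt x hx hxK
    rw [inner_smul_right] at h1
    rw [ha, inner_smul_left, inner_smul_left]
    simp only [RCLike.conj_to_real]
    have h2 := mul_lt_mul_of_pos_left h1 (inv_pos.2 hvn)
    linarith
  have hnear : ∀ z x, dist z x < η / 8 → inner ℝ a z - η / 8 ≤ inner ℝ a x := by
    intro z x hzx
    have h1 : inner ℝ a z - inner ℝ a x = inner ℝ a (z - x) := by rw [inner_sub_right]
    have h2 : |inner ℝ a (z - x)| ≤ dist z x := by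
      refine (abs_real_inner_le_norm _ _).trans ?_
      rw [han, one_mul, dist_eq_norm]
    have := (abs_le.1 h2).2
    linarith
  -- the first net point
  obtain ⟨x₁, hx₁t, hx₁⟩ := ht ((1 / 2 : ℝ) • a) (by
    rw [norm_smul, han, Real.norm_eq_abs, abs_of_pos (by norm_num : (0 : ℝ) < 1 / 2)]
    linarith)
  have hx₁K : x₁ ∈ K := by
    apply hball
    rw [mem_ball_zero_iff]
    have h1 : ‖x₁‖ ≤ ‖(1 / 2 : ℝ) • a‖ + dist ((1 / 2 : ℝ) • a) x₁ := by
      rw [dist_eq_norm]
      calc ‖x₁‖ = ‖(1 / 2 : ℝ) • a - ((1 / 2 : ℝ) • a - x₁)‖ := by congr 1; abel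
        _ ≤ _ := norm_sub_le _ _
    rw [norm_smul, han, Real.norm_eq_abs, abs_of_pos (by norm_num : (0 : ℝ) < 1 / 2)] at h1
    linarith
  have e1 := hlt' x₁ hx₁t hx₁K
  have e2 := hnear _ _ hx₁
  rw [inner_smul_right, real_inner_self_eq_norm_sq, han] at e2
  -- so the value at `k` is large
  have hk1 : 1 / 4 ≤ inner ℝ a k := by nlinarith
  -- the second net point
  obtain ⟨x₂, hx₂t, hx₂⟩ := ht ((1 - η / 2) • k) (by
    rw [norm_smul, Real.norm_eq_abs, abs_of_pos (by linarith)]
    nlinarith [norm_nonneg k])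
  have hx₂K : x₂ ∈ K := by
    have hw : ((2 / η) • (x₂ - (1 - η / 2) • k)) ∈ K := by
      apply hball
      rw [mem_ball_zero_iff, norm_smul, Real.norm_eq_abs, abs_of_pos (by positivity),
        norm_sub_rev, ← dist_eq_norm]
      have : 2 / η * dist ((1 - η / 2) • k) x₂ < 2 / η * (η / 8) :=
        mul_lt_mul_of_pos_left hx₂ (by positivity)
      have e : 2 / η * (η / 8) = 1 / 4 := by field_simp; norm_num
      linarith
    have := hK hkK hw (by linarith : 0 ≤ 1 - η / 2) (by linarith : 0 ≤ η / 2) (by ring)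
    rw [smul_smul, show η / 2 * (2 / η) = 1 by field_simp, one_smul] at this
    have e : (1 - η / 2) • k + (x₂ - (1 - η / 2) • k) = x₂ := by abel
    rwa [e] at this
  have e3 := hlt' x₂ hx₂t hx₂K
  have e4 := hnear _ _ hx₂
  rw [inner_smul_right] at e4
  nlinarith

/-- **The question has a positive answer.** For `d ≥ 1` and `δ > 0` there is `r` such that every
finite family of convex sets in `ℝᵈ` in which any `2 d` members have an intersection of volume at
least `1` can be partitioned into `r` (possibly empty) classes, each with an intersection of volume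
at least `1 - δ`. -/
theorem result (d : ℕ) (hd : 1 ≤ d) (δ : ℝ) (hδ : 0 < δ) :
    ∃ r : ℕ, ∀ (ι : Type) (_ : Finite ι) (K : ι → Set (EuclideanSpace ℝ (Fin d))),
      (∀ i, Convex ℝ (K i)) →
      (∀ c : Fin (2 * d) → ι, 1 ≤ volume (⋂ k, K (c k))) →
      ∃ P : ι → Fin r, ∀ j : Fin r,
        ENNReal.ofReal (1 - δ) ≤ volume (⋂ (i : ι) (_ : P i = j), K i) := by
  classical
  obtain ⟨κ, hκ, hell⟩ := exists_good_ellipsoid hd
  obtain ⟨R, hR1, hR⟩ := exists_radius (d := d) (1 / κ)
  have hdpos : (0 : ℝ) < d := by exact_mod_cast hd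
  set η := min (1 / 2) (δ / d) with hη
  have hη0 : 0 < η := lt_min (by norm_num) (by positivity)
  have hη1 : η < 1 := (min_le_left _ _).trans_lt (by norm_num)
  have hηd : 1 - δ ≤ (1 - η) ^ d := by
    have h1 : 1 + (d : ℝ) * (-η) ≤ (1 + (-η)) ^ d :=
      one_add_mul_le_pow (by linarith) d
    have h2 : d * η ≤ δ := by
      have : η ≤ δ / d := min_le_right _ _
      rw [le_div_iff₀ hdpos] at this
      linarith
    rw [← sub_eq_add_neg] at h1
    linarith
  obtain ⟨t, -, htf, htc⟩ :=
    (isCompact_closedBall (0 : EuclideanSpace ℝ (Fin d)) R).finite_cover_balls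
      (show (0 : ℝ) < η / 8 by linarith)
  let N := htf.toFinset
  have hN : ∀ z : EuclideanSpace ℝ (Fin d), ‖z‖ ≤ R → ∃ x ∈ N, dist z x < η / 8 := by
    intro z hz
    have := htc (mem_closedBall_zero_iff.2 hz)
    simp only [mem_iUnion] at this
    obtain ⟨x, hx, hzx⟩ := this
    exact ⟨x, htf.mem_toFinset.2 hx, hzx⟩
  let e := (N.powerset).equivFin
  have hnt : Nontrivial (EuclideanSpace ℝ (Fin d)) := by
    apply Module.nontrivial_of_finrank_pos (R := ℝ)
    rw [finrank_euclideanSpace, Fintype.card_fin]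
    omega
  have huniv : volume (univ : Set (EuclideanSpace ℝ (Fin d))) = ⊤ :=
    measure_univ_of_isAddLeftInvariant volume
  refine ⟨N.powerset.card, ?_⟩
  intro ι hfin K hK hvol
  rcases isEmpty_or_nonempty ι with hemp | hne
  · refine ⟨fun i => hemp.elim i, fun j => ?_⟩
    have : (⋂ (i : ι) (_ : (hemp.elim i : Fin N.powerset.card) = j), K i) = univ := by
      rw [iInter_of_empty]
    rw [this, huniv]
    exact le_top
  obtain ⟨A, c, hκA, hA⟩ := hell ι hfin hne K hK hvol
  have hpos : 0 < |LinearMap.det A| := hκ.trans_le hκA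
  let K' : ι → Set (EuclideanSpace ℝ (Fin d)) := fun i => {w | c + A w ∈ K i}
  have hK' : ∀ i, Convex ℝ (K' i) := fun i => convex_coords (hK i) A c
  have hK'ball : ∀ i, ball 0 1 ⊆ K' i := fun i w hw => hA w (mem_ball_zero_iff.1 hw) i
  -- the volume of the members in the ball
  have hK'vol : ∀ i, ENNReal.ofReal (|LinearMap.det A|⁻¹) ≤ volume (K' i ∩ closedBall 0 R) := by
    intro i
    rcases hR (K' i) (hK' i) (hK'ball i) with h | h
    · rw [inter_eq_left.2 h]
      have h1 : 1 ≤ volume (K i) := by
        have := hvol (fun _ => i)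
        refine this.trans (measure_mono ?_)
        exact iInter_subset (fun _ : Fin (2 * d) => K i) ⟨0, by omega⟩
      rw [volume_coords A hpos c] at h1
      have h2 : ENNReal.ofReal (|LinearMap.det A|⁻¹) * 1 ≤ ENNReal.ofReal (|LinearMap.det A|⁻¹) *
          (ENNReal.ofReal |LinearMap.det A| * volume {w | c + A w ∈ K i}) := by
        gcongr
      rw [mul_one, ← mul_assoc, ← ENNReal.ofReal_mul (by positivity), inv_mul_cancel₀ hpos.ne',
        ENNReal.ofReal_one, one_mul] at h2
      exact h2
    · refine le_trans (ENNReal.ofReal_le_ofReal ?_) h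
      rw [one_div]
      exact inv_anti₀ hκ hκA
  -- the types
  let T : ι → Finset (EuclideanSpace ℝ (Fin d)) := fun i => N.filter (fun x => x ∈ K' i)
  have hT : ∀ i, T i ∈ N.powerset := fun i => Finset.mem_powerset.2 (Finset.filter_subset _ _)
  refine ⟨fun i => e ⟨T i, hT i⟩, fun j => ?_⟩
  by_cases hj : ∃ i, e ⟨T i, hT i⟩ = j
  · obtain ⟨i₀, hi₀⟩ := hj
    have hsame : ∀ i, e ⟨T i, hT i⟩ = j → T i = T i₀ := by
      intro i hi
      have := e.injective (hi.trans hi₀.symm)
      exact congrArg Subtype.val this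
    rw [volume_coords A hpos c]
    have hsub : (1 - η) • (K' i₀ ∩ closedBall 0 R) ⊆
        {w | c + A w ∈ ⋂ (i : ι) (_ : e ⟨T i, hT i⟩ = j), K i} := by
      refine (hull_net (hK' i₀) (hK'ball i₀) hR1 hη0 hη1 N (T i₀) hN
        (fun x hx hxK => Finset.mem_filter.2 ⟨hx, hxK⟩)).trans ?_
      intro w hw
      simp only [mem_ofPred_eq, mem_iInter]
      intro i hi
      have h1 : convexHull ℝ ((T i₀ : Finset (EuclideanSpace ℝ (Fin d))) :
          Set (EuclideanSpace ℝ (Fin d))) ⊆ K' i := by
        apply convexHull_min _ (hK' i)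
        intro x hx
        rw [← hsame i hi] at hx
        exact (Finset.mem_filter.1 hx).2
      exact h1 hw
    have hvol2 : ENNReal.ofReal ((1 - η) ^ d) * ENNReal.ofReal (|LinearMap.det A|⁻¹) ≤
        volume {w | c + A w ∈ ⋂ (i : ι) (_ : e ⟨T i, hT i⟩ = j), K i} := by
      refine le_trans ?_ (measure_mono hsub)
      have h1η : 0 ≤ 1 - η := by linarith
      rw [Measure.addHaar_smul, finrank_euclideanSpace, Fintype.card_fin,
        abs_of_nonneg (pow_nonneg h1η d)]
      gcongr
      exact hK'vol i₀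
    calc ENNReal.ofReal (1 - δ) ≤ ENNReal.ofReal ((1 - η) ^ d) := ENNReal.ofReal_le_ofReal hηd
      _ = ENNReal.ofReal |LinearMap.det A| *
          (ENNReal.ofReal ((1 - η) ^ d) * ENNReal.ofReal (|LinearMap.det A|⁻¹)) := by
        rw [mul_comm (ENNReal.ofReal ((1 - η) ^ d)), ← mul_assoc,
          ← ENNReal.ofReal_mul (abs_nonneg _), mul_inv_cancel₀ hpos.ne', ENNReal.ofReal_one,
          one_mul]
      _ ≤ _ := by gcongr
  · have : (⋂ (i : ι) (_ : e ⟨T i, hT i⟩ = j), K i) = univ := by
      rw [eq_univ_iff_forall]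
      intro x
      simp only [mem_iInter]
      intro i hi
      exact absurd ⟨i, hi⟩ hj
    rw [this, huniv]
    exact le_top

end Pool.Agent.Results.MP_05b917_co.VolumePartition
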